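import Mathlib
import Pool.Agent.H713R3.CollQ

set_option autoImplicit false

/-!
# Vanishing for general monomial collisions: quasi-polynomial range, every characteristic

For every algebraically closed field `k` of any characteristic, all `r ≥ 5 ^ 168` and all `m ≥ 1`,
the subscheme of the plane with ideal
`(y - (a₀ + a₁ x + ... + a_(r-1) x ^ (r-1)), (x - c) ^ r) ^ m` lies, for all `(c, a)` outside a
hypersurface, on no curve of degree `d ≤ (1 - exp (-(log r) ^ 2 / 31)) m √r`, and if
`m ≤ exp ((log r) ^ 2 / 92)` on no curve of degree `d < m √r`.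
-/

namespace Pool.Agent.Results.MP_cea741_ag.CollisionQuasiPolynomial

open Polynomial

universe u

theorem result (k : Type u) [Field k] [IsAlgClosed k] (r : ℕ) (hr : 5 ^ 168 ≤ r) (m : ℕ)
    (hm : 0 < m) :
    ∃ F : MvPolynomial (Fin (r + 1)) k, F ≠ 0 ∧
      ∀ (c : k) (a : Fin r → k), MvPolynomial.eval (Fin.cons c a : Fin (r + 1) → k) F ≠ 0 →
        ∀ d : ℕ, ((d : ℝ) ≤ (1 - Real.exp (-(Real.log r ^ 2 / 31))) * (m * Real.sqrt r) ∨
            ((m : ℝ) ≤ Real.exp (Real.log r ^ 2 / 92) ∧ (d : ℝ) < m * Real.sqrt r)) →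
          ∀ P : MvPolynomial (Fin 3) k, P.IsHomogeneous d →
            (MvPolynomial.aeval ![C X, X, 1] : MvPolynomial (Fin 3) k →ₐ[k] k[X][X]) P ∈
              (Ideal.span {X - C (∑ j : Fin r, C (a j) * X ^ (j : ℕ)), C ((X - C c) ^ r)} :
                Ideal k[X][X]) ^ m →
            P = 0 := by
  have : Infinite k := IsAlgClosed.instInfinite
  obtain ⟨F, hF, hF'⟩ := H713R3.coll_win (K := k) hr hm
  exact ⟨F, hF, fun c a hc d hd P hP hP' => ((hF' c a hc d).1 hd).1 P hP hP'⟩

end Pool.Agent.Results.MP_cea741_ag.CollisionQuasiPolynomial
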