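import Mathlib
import Pool.Agent.H46R3.SqCollide

set_option autoImplicit false

/-!
# Vanishing for general monomial collisions when the number of points is a perfect square

For every perfect square `r > 9`, every `m ≥ 1` and every `d ≤ m √r` the subscheme of the plane with
ideal `(y - (a₀ + a₁ x + ... + a_(r-1) x ^ (r-1)), (x - c) ^ r) ^ m` lies on no curve of degree `d`,
for all `(c, a)` outside a hypersurface.
-/

namespace Pool.Agent.Results.MP_cea741_ag.CollisionSquares

open Polynomial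

theorem result (k : Type*) [Field k] [IsAlgClosed k] (r : ℕ) (hr : 9 < r) (hsq : IsSquare r)
    (m : ℕ) (hm : 0 < m)
    (hchar : ∀ q : ℕ, 0 < q → q ≤ max m (Nat.sqrt r + 1) → (q : k) ≠ 0) :
    ∃ F : MvPolynomial (Fin (r + 1)) k, F ≠ 0 ∧
      ∀ (c : k) (a : Fin r → k), MvPolynomial.eval (Fin.cons c a : Fin (r + 1) → k) F ≠ 0 →
        ∀ d : ℕ, (d : ℝ) ≤ m * Real.sqrt r →
          ∀ P : MvPolynomial (Fin 3) k, P.IsHomogeneous d →
            (MvPolynomial.aeval ![C X, X, 1] : MvPolynomial (Fin 3) k →ₐ[k] k[X][X]) P ∈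
              (Ideal.span {X - C (∑ j : Fin r, C (a j) * X ^ (j : ℕ)), C ((X - C c) ^ r)} :
                Ideal k[X][X]) ^ m →
            P = 0 := by
  obtain ⟨s, hs⟩ := hsq
  rw [← pow_two] at hs
  subst hs
  have : Infinite k := IsAlgClosed.instInfinite
  have hs4 : 4 ≤ s := by
    by_contra hcon
    rw [not_le] at hcon
    have : s ^ 2 ≤ 3 ^ 2 := Nat.pow_le_pow_left (by omega) 2
    omega
  rw [Nat.sqrt_eq'] at hchar
  obtain ⟨F, hF, hF'⟩ := H46R3.Sq.sq_collision hs4 hm hchar
  refine ⟨F, hF, fun c a hFe d hd P hP hP' => ?_⟩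
  refine (hF' c a hFe).mono ?_ P hP hP'
  rw [Nat.cast_pow, Real.sqrt_sq (Nat.cast_nonneg s)] at hd
  exact_mod_cast hd

end Pool.Agent.Results.MP_cea741_ag.CollisionSquares
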